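import Mathlib
import Pool.Agent.X34.E.E20
import Pool.Agent.X34.E.E4

/-!
# Pairs of consecutive primes with one common gap at most 212 between consecutive cubes

The conjecture asks for twin primes between all consecutive cubes, and for their number to tend to infinity. Here
the gap 2 is replaced by one of the even gaps `h ≤ 212`, all `n` are replaced by a positive proportion, and the
number of the pairs is at least `c n ^ 2 / (log n) ^ 45`. The same for all powers `n ^ s`, `s ≥ 2`, and in residue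
classes.
-/

set_option autoImplicit false

open Finset Filter

namespace Pool.Agent.Results.MP_d610d0_nt.ProportionOfCubes

/-- the number of the pairs `p, p + h` of consecutive primes with `n ^ s < p < p + h < (n + 1) ^ s` and
`p ≡ a (mod q)` -/
noncomputable def pairs (s q a h n : ℕ) : ℕ :=
  Set.ncard {p : ℕ | n ^ s < p ∧ p + h < (n + 1) ^ s ∧ p ≡ a [MOD q] ∧ p.Prime ∧ (p + h).Prime ∧
    ∀ m, p < m → m < p + h → ¬ m.Prime}

/-- the number of the integers `N ≤ n < 2 N` with at least `c n ^ (s - 1) / (log n) ^ 45` pairs -/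
noncomputable def good (c : ℝ) (s q a h N : ℕ) : ℕ :=
  Set.ncard {n : ℕ | N ≤ n ∧ n < 2 * N ∧ c * (n : ℝ) ^ (s - 1) / Real.log n ^ 45 ≤ (pairs s q a h n : ℝ)}

/-- For all `s ≥ 2`, `q ≥ 1` and `a` prime to `q` there is `c > 0` such that for all large `N` there is
`1 ≤ k ≤ 106` such that for at least `c N` of the integers `N ≤ n < 2 N` there are at least
`c n ^ (s - 1) / (log n) ^ 45` pairs of consecutive primes `p`, `p + k lcm (2, q)` with `p ≡ a (mod q)` between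
`n ^ s` and `(n + 1) ^ s`. One `k` has this property for arbitrarily large `N`. -/
theorem result (s q a : ℕ) (hs : 2 ≤ s) (hq : 1 ≤ q) (ha : a.Coprime q) :
    ∃ c : ℝ, 0 < c ∧
      (∀ᶠ N : ℕ in atTop, ∃ k : ℕ, 1 ≤ k ∧ k ≤ 106 ∧ c * N ≤ (good c s q a (k * Nat.lcm 2 q) N : ℝ)) ∧
      ∃ k : ℕ, 1 ≤ k ∧ k ≤ 106 ∧ ∃ᶠ N : ℕ in atTop, c * N ≤ (good c s q a (k * Nat.lcm 2 q) N : ℝ) := by
  obtain ⟨a', ha1, ha2⟩ := Pool.Agent.X34.E.lift_class q a hq ha
  have hM0 : 0 < Nat.lcm 2 q := Nat.lcm_pos (by norm_num) hq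
  have hM2 : 2 ∣ Nat.lcm 2 q := Nat.dvd_lcm_left 2 q
  have hMq : q ∣ Nat.lcm 2 q := Nat.dvd_lcm_right 2 q
  obtain ⟨c, hc, h⟩ := Pool.Agent.X34.E.powers_pos Pool.Agent.X34.E.dhl45R s hs (Nat.lcm 2 q) a' hM0 ha2
    Pool.Agent.X34.E.G45 Pool.Agent.X34.E.G45_card
    (fun p hp hpM => Pool.Agent.X34.E.G45_adm p hp (fun h2 => hpM (h2 ▸ hM2)))
  have hall : ∀ᶠ N : ℕ in atTop, ∃ k : ℕ, 1 ≤ k ∧ k ≤ 106 ∧
      c * N ≤ (good c s q a (k * Nat.lcm 2 q) N : ℝ) := by
    filter_upwards [h] with N hN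
    obtain ⟨g, hg, g', hg', hgg, hN⟩ := hN
    have h106 := Pool.Agent.X34.E.G45_le g' hg'
    refine ⟨g' - g, by omega, by omega, hN.trans ?_⟩
    unfold good
    rw [Nat.cast_le]
    refine Set.ncard_le_ncard (fun n hn => ⟨hn.1, hn.2.1, hn.2.2.trans ?_⟩)
      ((Set.finite_Iio (2 * N)).subset fun n hn => hn.2.1)
    unfold pairs
    rw [Nat.cast_le]
    refine Set.ncard_le_ncard (fun p hp => ⟨hp.1, hp.2.1, (hp.2.2.1.of_dvd hMq).trans ha1, hp.2.2.2⟩)
      ((Set.finite_Iio ((n + 1) ^ s)).subset fun p hp => ?_)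
    have := hp.2.1
    show p < (n + 1) ^ s
    omega
  refine ⟨c, hc, hall, ?_⟩
  by_contra hcon
  push Not at hcon
  have h2 : ∀ k ∈ Icc 1 106, ∀ᶠ N : ℕ in atTop, ¬ c * N ≤ (good c s q a (k * Nat.lcm 2 q) N : ℝ) := by
    intro k hk
    rw [mem_Icc] at hk
    have h3 := hcon k hk.1 hk.2
    filter_upwards [h3] with N hN
    exact not_le.2 hN
  have h3 := (Filter.eventually_all_finset _).2 h2
  obtain ⟨N, hN1, hN2⟩ := (hall.and h3).exists
  obtain ⟨k, hk1, hk2, hk3⟩ := hN1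
  exact hN2 k (mem_Icc.2 ⟨hk1, hk2⟩) hk3

end Pool.Agent.Results.MP_d610d0_nt.ProportionOfCubes
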